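import Mathlib

set_option autoImplicit false

namespace Pool.Agent.H.MP_16be1b_co

open MvPolynomial Finset

/-- integer valued functions on `ℤ^n` -/
abbrev Fn (n : ℕ) := (Fin n → ℤ) → ℤ

/-- exponent vector as an integer vector -/
def vec {n : ℕ} (m : Fin n →₀ ℕ) : Fin n → ℤ := fun i => (m i : ℤ)

lemma vec_zero {n : ℕ} : vec (0 : Fin n →₀ ℕ) = 0 := by
  funext i; simp [vec]

lemma vec_add {n : ℕ} (a b : Fin n →₀ ℕ) : vec (a + b) = vec a + vec b := by
  funext i; simp [vec]

lemma vec_single {n : ℕ} (i : Fin n) : vec (Finsupp.single i 1) = Pi.single i (1 : ℤ) := by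
  funext j
  by_cases h : j = i
  · subst h; simp [vec]
  · simp [vec, h]

/-- translation operators -/
def shiftEnd {n : ℕ} (v : Fin n → ℤ) : Module.End ℤ (Fn n) where
  toFun f := fun k => f (k + v)
  map_add' _ _ := rfl
  map_smul' _ _ := rfl

@[simp] lemma shiftEnd_apply {n : ℕ} (v : Fin n → ℤ) (f : Fn n) (k : Fin n → ℤ) :
    shiftEnd v f k = f (k + v) := rfl

/-- the monoid hom -/
def shiftHom (n : ℕ) : Multiplicative (Fin n →₀ ℕ) →* Module.End ℤ (Fn n) where
  toFun m := shiftEnd (vec m.toAdd)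
  map_one' := by
    ext f k
    simp [vec_zero]
  map_mul' a b := by
    ext f k
    simp [vec_add, add_assoc]

/-- action of polynomials in the shift operators on functions -/
noncomputable def act (n : ℕ) : MvPolynomial (Fin n) ℤ →ₐ[ℤ] Module.End ℤ (Fn n) :=
  AddMonoidAlgebra.lift ℤ _ _ (shiftHom n)

lemma act_monomial {n : ℕ} (m : Fin n →₀ ℕ) (c : ℤ) (f : Fn n) (k : Fin n → ℤ) :
    act n (monomial m c) f k = c * f (k + vec m) := by
  have : act n (monomial m c) = c • shiftHom n (Multiplicative.ofAdd m) := by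
    unfold act
    exact AddMonoidAlgebra.lift_single _ _ _
  rw [this]
  simp [shiftHom]

lemma act_X {n : ℕ} (i : Fin n) (f : Fn n) (k : Fin n → ℤ) :
    act n (X i) f k = f (k + Pi.single i 1) := by
  have := act_monomial (Finsupp.single i 1) 1 f k
  rw [vec_single, one_mul] at this
  exact this

lemma act_C {n : ℕ} (c : ℤ) (f : Fn n) :
    act n (C c) f = c • f := by
  funext k
  have := act_monomial (0 : Fin n →₀ ℕ) c f k
  rw [vec_zero, add_zero] at this
  exact this

lemma act_mul {n : ℕ} (p q : MvPolynomial (Fin n) ℤ) (f : Fn n) :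
    act n (p * q) f = act n p (act n q f) := by
  rw [map_mul]; rfl

lemma act_comm {n : ℕ} (p q : MvPolynomial (Fin n) ℤ) (f : Fn n) :
    act n p (act n q f) = act n q (act n p f) := by
  rw [← act_mul, ← act_mul, mul_comm]

lemma act_one {n : ℕ} (f : Fn n) : act n 1 f = f := by
  rw [map_one]; rfl

lemma act_add {n : ℕ} (p q : MvPolynomial (Fin n) ℤ) (f : Fn n) :
    act n (p + q) f = act n p f + act n q f := by
  rw [map_add]; rfl

lemma act_sub {n : ℕ} (p q : MvPolynomial (Fin n) ℤ) (f : Fn n) :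
    act n (p - q) f = act n p f - act n q f := by
  rw [map_sub]; rfl

lemma act_zero {n : ℕ} (f : Fn n) : act n 0 f = 0 := by
  rw [map_zero]; rfl

lemma intertwine {n m : ℕ} (L : Fn m →ₗ[ℤ] Fn n)
    (φ : MvPolynomial (Fin n) ℤ →ₐ[ℤ] MvPolynomial (Fin m) ℤ)
    (h : ∀ i f, act n (X i) (L f) = L (act m (φ (X i)) f)) :
    ∀ Ψ f, act n Ψ (L f) = L (act m (φ Ψ) f) := by
  intro Ψ
  induction Ψ using MvPolynomial.induction_on with
  | C a =>
    intro f
    rw [act_C]
    have : φ (C a) = C a := by
      have := φ.commutes a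
      exact this
    rw [this, act_C, map_smul]
  | add p q hp hq =>
    intro f
    rw [act_add, map_add, act_add, hp, hq, map_add]
  | mul_X p i hp =>
    intro f
    rw [act_mul, h, hp, map_mul, act_mul]

/-- pull back along a permutation of the coordinates -/
def permL {n : ℕ} (σ : Equiv.Perm (Fin n)) : Fn n →ₗ[ℤ] Fn n where
  toFun f := fun k => f (fun i => k (σ i))
  map_add' _ _ := rfl
  map_smul' _ _ := rfl

lemma act_permL {n : ℕ} (σ : Equiv.Perm (Fin n)) (Ψ : MvPolynomial (Fin n) ℤ) (f : Fn n) :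
    act n Ψ (permL σ f) = permL σ (act n (rename σ.symm Ψ) f) := by
  refine intertwine (permL σ) (rename σ.symm) ?_ Ψ f
  intro i f
  funext k
  rw [rename_X, act_X]
  change f _ = act n (X (σ.symm i)) f _
  rw [act_X]
  congr 1
  funext j
  simp only [Pi.add_apply]
  congr 1
  by_cases h : σ j = i
  · have : j = σ.symm i := by simp [← h]
    rw [this]; simp
  · have : j ≠ σ.symm i := by
      intro h'; apply h; simp [h']
    simp [h, this]

/-- substitute at a coordinate : functions not depending on coordinate `m` -/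
def dropL {n : ℕ} (m : Fin (n + 1)) : Fn n →ₗ[ℤ] Fn (n + 1) where
  toFun f := fun k => f (fun i => k (m.succAbove i))
  map_add' _ _ := rfl
  map_smul' _ _ := rfl

/-- the corresponding specialisation `X m = 1` -/
noncomputable def spec {n : ℕ} (m : Fin (n + 1)) :
    MvPolynomial (Fin (n + 1)) ℤ →ₐ[ℤ] MvPolynomial (Fin n) ℤ :=
  aeval (m.insertNth (α := fun _ => MvPolynomial (Fin n) ℤ) 1 (fun i => X i))

lemma spec_X_self {n : ℕ} (m : Fin (n + 1)) : spec m (X m) = 1 := by
  simp [spec]

lemma spec_X_succAbove {n : ℕ} (m : Fin (n + 1)) (i : Fin n) :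
    spec m (X (m.succAbove i)) = X i := by
  simp [spec]

lemma act_dropL {n : ℕ} (m : Fin (n + 1)) (Ψ : MvPolynomial (Fin (n + 1)) ℤ) (f : Fn n) :
    act (n + 1) Ψ (dropL m f) = dropL m (act n (spec m Ψ) f) := by
  refine intertwine (dropL m) (spec m) ?_ Ψ f
  intro i f
  funext k
  rw [act_X]
  rcases Fin.eq_self_or_eq_succAbove m i with h | ⟨j, h⟩
  · subst h
    rw [spec_X_self, act_one]
    change f _ = f _
    congr 1
    funext j
    simp
  · subst h
    rw [spec_X_succAbove]
    change f _ = act n (X j) f _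
    rw [act_X]
    congr 1
    funext l
    simp only [Pi.add_apply]
    congr 1
    by_cases h : l = j
    · subst h; simp
    · have : m.succAbove l ≠ m.succAbove j := by
        intro h'; exact h (Fin.succAbove_right_injective h')
      simp [h, this]

/-- restriction to first coordinate equal to `x` -/
def consL {n : ℕ} (x : ℤ) : Fn (n + 1) →ₗ[ℤ] Fn n where
  toFun f := fun k => f (Fin.cons x k)
  map_add' _ _ := rfl
  map_smul' _ _ := rfl

@[simp] lemma consL_apply {n : ℕ} (x : ℤ) (f : Fn (n + 1)) (k : Fin n → ℤ) :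
    consL x f k = f (Fin.cons x k) := rfl

lemma cons_add_single_succ {n : ℕ} (x : ℤ) (k : Fin n → ℤ) (i : Fin n) :
    (Fin.cons x (k + Pi.single i 1) : Fin (n + 1) → ℤ) = Fin.cons x k + Pi.single i.succ 1 := by
  funext j
  refine Fin.cases ?_ (fun j => ?_) j
  · simp
  · simp only [Fin.cons_succ, Pi.add_apply]
    congr 1
    by_cases h : j = i
    · subst h; simp
    · have : j.succ ≠ i.succ := by simpa using h
      simp [h, this]

lemma cons_add_single_zero {n : ℕ} (x : ℤ) (k : Fin n → ℤ) :
    (Fin.cons (x + 1) k : Fin (n + 1) → ℤ) = Fin.cons x k + Pi.single 0 1 := by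
  funext j
  refine Fin.cases ?_ (fun j => ?_) j
  · simp
  · simp

lemma act_consL {n : ℕ} (x : ℤ) (Ψ : MvPolynomial (Fin n) ℤ) (f : Fn (n + 1)) :
    act n Ψ (consL x f) = consL x (act (n + 1) (rename Fin.succ Ψ) f) := by
  refine intertwine (consL x) (rename Fin.succ) ?_ Ψ f
  intro i f
  funext k
  rw [act_X, rename_X]
  simp only [consL_apply]
  rw [act_X, cons_add_single_succ]

end Pool.Agent.H.MP_16be1b_co
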