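import Pool.Agent.H.MP_16be1b_co.Oper

set_option autoImplicit false

namespace Pool.Agent.H.MP_16be1b_co

open MvPolynomial Finset

/-- difference of binomials in a column -/
noncomputable def gd (j : ℕ) (x : ℤ) : ℤ := if j = 0 then 0 else Ring.choose x (j - 1)

lemma gd_eq (j : ℕ) (x : ℤ) : gd j x = Ring.choose (x + 1) j - Ring.choose x j := by
  unfold gd
  rcases j with _ | j
  · simp
  · rw [if_neg (Nat.succ_ne_zero j), Ring.choose_succ_succ]
    simp

section
variable (n : ℕ) (k : Fin n → ℤ)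

/-- the matrix with rows in `s` differenced -/
noncomputable def Ms (s : Finset (Fin n)) : Matrix (Fin n) (Fin n) ℤ :=
  Matrix.of fun i j : Fin n => if i ∈ s then gd (j : ℕ) (k i) else Ring.choose (k i) (j : ℕ)

/-- unitriangular -/
noncomputable def Ut : Matrix (Fin n) (Fin n) (Polynomial ℤ) :=
  Matrix.of fun i j : Fin n => if i = j then 1 else if (i : ℕ) + 1 = j then Polynomial.X else 0

/-- polynomial matrix -/
noncomputable def Nt : Matrix (Fin n) (Fin n) (Polynomial ℤ) :=
  Matrix.of fun i j : Fin n => Polynomial.X * Polynomial.C (gd (j : ℕ) (k i)) +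
    Polynomial.C (Ring.choose (k i) (j : ℕ))

lemma det_Ut : (Ut n).det = 1 := by
  rw [Matrix.det_of_isUpperTriangular]
  · simp [Ut]
  · intro i j hij
    simp only [id] at hij
    unfold Ut
    rw [Matrix.of_apply, if_neg (by intro h; rw [h] at hij; exact lt_irrefl _ hij), if_neg]
    rw [Fin.lt_def] at hij
    omega

lemma Nt_eq : Nt n k = (Matrix.of fun i j : Fin n => Polynomial.C (Ring.choose (k i) (j : ℕ))) * Ut n := by
  ext1 i j
  rw [Matrix.mul_apply]
  unfold Nt Ut
  simp only [Matrix.of_apply]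
  rcases j with ⟨j, hj⟩
  rcases j with _ | j
  · rw [Finset.sum_eq_single ⟨0, hj⟩]
    · simp [gd]
    · intro l _ hl
      rw [if_neg hl, if_neg (by simp), mul_zero]
    · intro h; exact absurd (Finset.mem_univ _) h
  · have hj' : j < n := by omega
    rw [Finset.sum_eq_add (⟨j, hj'⟩ : Fin n) ⟨j + 1, hj⟩]
    · simp [gd]
      ring
    · intro h; simp at h
    · intro l _ hl
      rw [if_neg hl.2, if_neg, mul_zero]
      intro h
      apply hl.1
      ext
      simp at h ⊢
      omega
    · intro h; exact absurd (Finset.mem_univ _) h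
    · intro h; exact absurd (Finset.mem_univ _) h

lemma det_Nt : (Nt n k).det = Polynomial.C ((Ms n k ∅).det) := by
  rw [Nt_eq, Matrix.det_mul, det_Ut, mul_one]
  have := RingHom.map_det (Polynomial.C : ℤ →+* Polynomial ℤ) (Ms n k ∅)
  rw [this]
  congr 1

lemma det_Nt_expand : (Nt n k).det = ∑ s : Finset (Fin n),
    (Polynomial.X : Polynomial ℤ) ^ s.card * Polynomial.C ((Ms n k s).det) := by
  have h1 := (Matrix.detRowAlternating (n := Fin n) (R := Polynomial ℤ)).toMultilinearMap.map_add_univ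
    (fun (i j : Fin n) => Polynomial.X * Polynomial.C (gd (j : ℕ) (k i)))
    (fun (i j : Fin n) => Polynomial.C (Ring.choose (k i) (j : ℕ)))
  have h2 : (Nt n k).det = (Matrix.detRowAlternating (n := Fin n)
      (R := Polynomial ℤ)).toMultilinearMap
      ((fun (i j : Fin n) => Polynomial.X * Polynomial.C (gd (j : ℕ) (k i))) +
    (fun (i j : Fin n) => Polynomial.C (Ring.choose (k i) (j : ℕ)))) := rfl
  rw [h2, h1]
  refine Finset.sum_congr rfl (fun s _ => ?_)
  have h3 := RingHom.map_det (Polynomial.C : ℤ →+* Polynomial ℤ) (Ms n k s)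
  rw [h3]
  have h4 := Matrix.det_mul_column (fun i : Fin n => if i ∈ s then (Polynomial.X : Polynomial ℤ) else 1)
    ((Polynomial.C : ℤ →+* Polynomial ℤ).mapMatrix (Ms n k s))
  have h5 : ∏ i : Fin n, (if i ∈ s then (Polynomial.X : Polynomial ℤ) else 1) =
      Polynomial.X ^ s.card := by
    rw [Finset.prod_ite_mem, Finset.univ_inter, Finset.prod_const]
  rw [h5] at h4
  rw [← h4]
  change Matrix.det _ = _
  congr 1
  ext1 i j
  simp only [Finset.piecewise, Matrix.of_apply, RingHom.mapMatrix_apply, Matrix.map_apply, Ms]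
  split_ifs <;> simp

lemma esymm_kill (j : ℕ) (hj : 1 ≤ j) :
    ∑ s ∈ Finset.powersetCard j (Finset.univ : Finset (Fin n)), (Ms n k s).det = 0 := by
  have h := (det_Nt n k).symm.trans (det_Nt_expand n k)
  have h2 := congrArg (fun p => Polynomial.coeff p j) h
  simp only [Polynomial.finsetSum_coeff, Polynomial.coeff_X_pow_mul', Polynomial.coeff_C] at h2
  rw [if_neg (by omega)] at h2
  rw [← Finset.univ_filter_card_eq, Finset.sum_filter]
  refine Eq.trans (Finset.sum_congr rfl (fun s _ => ?_)) h2.symm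
  by_cases h : s.card = j
  · simp [h]
  · rw [if_neg h]
    split_ifs with a b
    · exact absurd (by omega) h
    · rfl
    · rfl

end

lemma act_Ms {n : ℕ} (s : Finset (Fin n)) (k : Fin n → ℤ) :
    act n (∏ i ∈ s, (X i - 1)) (aa n) k = (Ms n k s).det := by
  unfold aa
  rw [act_prod_detF _ (fun j x => gd (j : ℕ) x) (fun j x => gd_eq _ _)]
  rfl

lemma act_esymm {n : ℕ} (j : ℕ) (hj : 1 ≤ j) :
    act n (∑ s ∈ Finset.powersetCard j (Finset.univ : Finset (Fin n)), ∏ i ∈ s, (X i - 1)) (aa n)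
      = 0 := by
  funext k
  rw [map_sum, LinearMap.sum_apply, Finset.sum_apply]
  simp only [act_Ms]
  exact esymm_kill n k j hj

lemma act_prod_kill {n : ℕ} (u v : MvPolynomial (Fin n) ℤ) :
    act n (∏ i : Fin n, (v * (X i - 1) + u)) (aa n) = act n (u ^ n) (aa n) := by
  have h1 : (∏ i : Fin n, (v * (X i - 1) + u)) = ∑ j ∈ Finset.range (n + 1),
      (v ^ j * u ^ (n - j)) *
      ∑ s ∈ Finset.powersetCard j (Finset.univ : Finset (Fin n)), ∏ i ∈ s, (X i - 1) := by
    rw [Finset.prod_add, Finset.sum_powerset]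
    simp only [Finset.card_univ, Fintype.card_fin]
    refine Finset.sum_congr rfl (fun j _ => ?_)
    rw [Finset.mul_sum]
    refine Finset.sum_congr rfl (fun s hs => ?_)
    rw [Finset.mem_powersetCard] at hs
    rw [Finset.prod_mul_distrib, Finset.prod_const, Finset.prod_const, hs.2,
      Finset.card_sdiff_of_subset hs.1, hs.2, Finset.card_univ, Fintype.card_fin]
    ring
  rw [h1, Finset.sum_range_succ', map_add, LinearMap.add_apply, map_sum, LinearMap.sum_apply]
  rw [Finset.sum_eq_zero]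
  · rw [zero_add]
    simp
  · intro j _
    rw [act_mul, act_esymm _ (by omega), map_zero]

lemma act_D_pow (n : ℕ) : act (n + 1) ((X 0 - 1) ^ (n + 1)) (aa (n + 1)) = 0 := by
  rw [← act_prod_kill (X 0 - 1) (-1)]
  rw [Finset.prod_eq_zero (Finset.mem_univ (0 : Fin (n + 1)))]
  · exact act_zero _
  · ring

lemma cancel_S {n : ℕ} (W : MvPolynomial (Fin (n + 1)) ℤ)
    (h : act (n + 1) (S 0 0 * W) (aa (n + 1)) = 0) : act (n + 1) W (aa (n + 1)) = 0 := by
  set D : MvPolynomial (Fin (n + 1)) ℤ := X 0 - 1 with hD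
  have h1 : (S 0 0 : MvPolynomial (Fin (n + 1)) ℤ) = 1 + D + D ^ 2 := by
    unfold S
    rw [hD]
    ring
  have h2 := geom_sum_mul_neg (D ^ 3) (n + 1)
  set G := ∑ i ∈ Finset.range (n + 1), (D ^ 3) ^ i with hG
  have h3 : W = (G * (1 - D)) * (S 0 0 * W) + (W * D ^ (2 * (n + 1))) * D ^ (n + 1) := by
    have h4 : (D ^ 3) ^ (n + 1) = D ^ (2 * (n + 1)) * D ^ (n + 1) := by ring
    rw [h4] at h2
    rw [h1]
    linear_combination (-W) * h2
  rw [h3, act_add, act_mul, act_mul (W * D ^ (2 * (n + 1))), h, act_D_pow]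
  simp

/-- the common part -/
noncomputable def RR (n : ℕ) : MvPolynomial (Fin (n + 1)) ℤ :=
  ∏ p : Fin n, ∏ q : Fin n, if p < q then S p.succ q.succ else 1

lemma Phi_succ (n : ℕ) : Phi (n + 1) = RR n * ∏ q : Fin n, S 0 q.succ := by
  unfold Phi RR
  rw [Fin.prod_univ_succ, Fin.prod_univ_succ]
  simp only [lt_irrefl, if_false, one_mul, Fin.succ_pos, if_true]
  rw [mul_comm]
  congr 1
  refine Finset.prod_congr rfl (fun p _ => ?_)
  rw [Fin.prod_univ_succ]
  simp

lemma rename_Phi_succ (n : ℕ) : rename (finRotate (n + 1)) (Phi (n + 1)) =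
    RR n * ∏ p : Fin n, S p.succ 0 := by
  unfold Phi RR
  rw [map_prod, Fin.prod_univ_castSucc]
  have h0 : rename (finRotate (n + 1)) (∏ q : Fin (n + 1), if Fin.last n < q then S (Fin.last n) q else 1)
      = (1 : MvPolynomial (Fin (n + 1)) ℤ) := by
    rw [map_prod]
    refine Finset.prod_eq_one (fun q _ => ?_)
    rw [if_neg (not_lt.mpr (Fin.le_last q)), map_one]
  rw [h0, mul_one, ← Finset.prod_mul_distrib]
  refine Finset.prod_congr rfl (fun p _ => ?_)
  rw [map_prod, Fin.prod_univ_castSucc]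
  congr 1
  · refine Finset.prod_congr rfl (fun q _ => ?_)
    simp only [Fin.castSucc_lt_castSucc_iff]
    split_ifs
    · rw [rename_S]
      simp
    · simp
  · rw [if_pos (Fin.castSucc_lt_last p), rename_S]
    simp

lemma act_rotate (n : ℕ) : act (n + 1) (rename (finRotate (n + 1)) (Phi (n + 1))) (aa (n + 1)) =
    act (n + 1) (X 0 ^ (n + 1) * Phi (n + 1)) (aa (n + 1)) := by
  rw [← sub_eq_zero, ← act_sub]
  apply cancel_S
  rw [rename_Phi_succ, Phi_succ]
  have h1 : S 0 0 * (RR n * ∏ p : Fin n, S p.succ 0 - X 0 ^ (n + 1) * (RR n * ∏ q : Fin n, S 0 q.succ))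
      = RR n * (∏ p : Fin (n + 1), ((X 0 - 1) * (X p - 1) + X 0)) -
        (X 0 ^ (n + 1) * RR n) * (∏ q : Fin (n + 1), (X 0 * (X q - 1) + 1)) := by
    have e1 : (∏ p : Fin (n + 1), ((X 0 - 1) * (X p - 1) + X 0)) =
        S 0 0 * ∏ p : Fin n, (S p.succ 0 : MvPolynomial (Fin (n + 1)) ℤ) := by
      rw [Fin.prod_univ_succ]
      congr 1
      · unfold S; ring
      · refine Finset.prod_congr rfl (fun p _ => ?_)
        unfold S; ring
    have e2 : (∏ q : Fin (n + 1), (X 0 * (X q - 1) + 1)) =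
        S 0 0 * ∏ q : Fin n, (S 0 q.succ : MvPolynomial (Fin (n + 1)) ℤ) := by
      rw [Fin.prod_univ_succ]
      congr 1
      · unfold S; ring
      · refine Finset.prod_congr rfl (fun p _ => ?_)
        unfold S; ring
    rw [e1, e2]
    ring
  rw [h1, act_sub, act_mul, act_mul, act_prod_kill, act_prod_kill, one_pow, act_one, ← act_mul,
    mul_comm (RR n)]
  exact sub_self _

/-- Fischer's circular shift identity on integer points -/
theorem alpha_circ (n : ℕ) (k : Fin (n + 1) → ℤ) :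
    alpha (n + 1) (fun i => (k + Pi.single 0 (-((n : ℤ) + 1)) : Fin (n + 1) → ℤ)
      (finRotate (n + 1) i)) =
      (-1) ^ n * alpha (n + 1) k := by
  set σ := finRotate (n + 1) with hσ
  set k' : Fin (n + 1) → ℤ := k + Pi.single 0 (-((n : ℤ) + 1)) with hk'
  have h1 := act_permL σ (rename σ (Phi (n + 1))) (aa (n + 1))
  have h2 : rename σ.symm (rename σ (Phi (n + 1))) = Phi (n + 1) := by
    rw [rename_rename]
    simp
  rw [h2] at h1
  unfold aa at h1
  rw [permL_detF, map_smul] at h1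
  have h3 : alpha (n + 1) (fun i => k' (σ i)) = permL σ (act (n + 1) (Phi (n + 1)) (aa (n + 1))) k' := rfl
  rw [h3]
  unfold aa
  rw [← h1]
  have h4 : ((Equiv.Perm.sign σ : ℤˣ) : ℤ) = (-1) ^ n := by
    rw [hσ, sign_finRotate]
    simp
  rw [h4, Pi.smul_apply, smul_eq_mul]
  congr 1
  have h5 := congrFun (act_rotate n) k'
  rw [← hσ] at h5
  unfold aa at h5
  rw [h5, act_mul]
  have h6 : ∀ (r : ℕ) (f : Fn (n + 1)) (l : Fin (n + 1) → ℤ),
      act (n + 1) (X 0 ^ r) f l = f (l + Pi.single 0 (r : ℤ)) := by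
    intro r f
    induction r with
    | zero => intro l; simp
    | succ r ih =>
      intro l
      rw [pow_succ', act_mul, act_X, ih]
      congr 1
      push_cast
      rw [add_assoc, ← Pi.single_add, add_comm (1 : ℤ)]
  rw [h6, hk', add_assoc, ← Pi.single_add]
  push_cast
  rw [neg_add_cancel, Pi.single_zero, add_zero]
  rfl

end Pool.Agent.H.MP_16be1b_co
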