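import Mathlib

set_option autoImplicit false

namespace Pool.Agent.H.MP_16be1b_co

/-- `a` is a monotone triangle with `n` rows and bottom row `k`.  Row `j + 1` of the triangle
(in the one-based numbering of the rows) is `a j`, with entries `a j 0 < a j 1 < ... < a j j`. -/
def IsMonotoneTriangle (n : ℕ) (k : Fin n → ℤ) (a : (j : Fin n) → Fin ((j : ℕ) + 1) → ℤ) : Prop :=
  (∀ j : Fin n, StrictMono (a j)) ∧
  (∀ (j : Fin n) (h : (j : ℕ) + 1 < n) (m : Fin ((j : ℕ) + 1)),
    a ⟨(j : ℕ) + 1, h⟩ m.castSucc ≤ a j m ∧ a j m ≤ a ⟨(j : ℕ) + 1, h⟩ m.succ) ∧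
  (∀ (j : Fin n) (h : (j : ℕ) + 1 = n) (m : Fin ((j : ℕ) + 1)), a j m = k (Fin.cast h m))

/-- number of monotone triangles with `n` rows and bottom row `k` -/
noncomputable def monotoneTriangleCount (n : ℕ) (k : Fin n → ℤ) : ℕ :=
  Nat.card {a : (j : Fin n) → Fin ((j : ℕ) + 1) → ℤ // IsMonotoneTriangle n k a}

/-- `P` is the monotone triangle polynomial `α(n; k_1, ..., k_n)`: a rational polynomial in `n`
variables whose value at every strictly increasing integer tuple `k` is the number of monotone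
triangles with `n` rows and bottom row `k`. -/
def IsMonotoneTrianglePolynomial (n : ℕ) (P : MvPolynomial (Fin n) ℚ) : Prop :=
  ∀ k : Fin n → ℤ, StrictMono k →
    MvPolynomial.eval (fun i => (k i : ℚ)) P = (monotoneTriangleCount n k : ℚ)

/-- the argument tuple `(i, 2, 3, ..., n + 1, 1, 2, ..., n)` of length `2 n + 1` (positions are
numbered from zero) -/
def args (n : ℕ) (i : ℤ) : Fin (2 * n + 1) → ℤ := fun m =>
  if (m : ℕ) = 0 then i else if (m : ℕ) ≤ n then ((m : ℕ) : ℤ) + 1 else ((m : ℕ) : ℤ) - n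

/-- `W_{n,i} = α(2n+1; i, 2, 3, ..., n+1, 1, 2, ..., n)`, computed with the polynomial `P`. -/
noncomputable def W (n : ℕ) (P : MvPolynomial (Fin (2 * n + 1)) ℚ) (i : ℤ) : ℚ :=
  MvPolynomial.eval (fun m => (args n i m : ℚ)) P

end Pool.Agent.H.MP_16be1b_co
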