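import Pool.Agent.H.MP_16be1b_co.Circ
import Pool.Agent.H.MP_16be1b_co.Defs

set_option autoImplicit false

namespace Pool.Agent.H.MP_16be1b_co

open MvPolynomial Finset

/-- append a bottom row -/
def app {n : ℕ} (a : (j : Fin n) → Fin ((j : ℕ) + 1) → ℤ) (k : Fin (n + 1) → ℤ) :
    (j : Fin (n + 1)) → Fin ((j : ℕ) + 1) → ℤ :=
  fun j => if h : (j : ℕ) < n then a ⟨j, h⟩ else fun m => k ⟨m, lt_of_lt_of_le m.2 j.2⟩

lemma app_lt {n : ℕ} (a : (j : Fin n) → Fin ((j : ℕ) + 1) → ℤ) (k : Fin (n + 1) → ℤ)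
    (j : ℕ) (hj : j < n) (hj' : j < n + 1) : app a k ⟨j, hj'⟩ = a ⟨j, hj⟩ := by
  unfold app
  rw [dif_pos hj]

lemma app_last {n : ℕ} (a : (j : Fin n) → Fin ((j : ℕ) + 1) → ℤ) (k : Fin (n + 1) → ℤ)
    (hj' : n < n + 1) : app a k ⟨n, hj'⟩ = k := by
  unfold app
  rw [dif_neg (lt_irrefl n)]

/-- the bottom row of a triangle -/
def bot {n : ℕ} (a : (j : Fin n) → Fin ((j : ℕ) + 1) → ℤ) : Fin n → ℤ :=
  fun m => a ⟨n - 1, by have := m.2; omega⟩ ⟨m, by have := m.2; simp only; omega⟩

lemma isMT_bot {n : ℕ} {k : Fin n → ℤ} {a : (j : Fin n) → Fin ((j : ℕ) + 1) → ℤ}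
    (h : IsMonotoneTriangle n k a) : bot a = k := by
  funext m
  unfold bot
  have hm := m.2
  have h1 := h.2.2 ⟨n - 1, by omega⟩ (by simp only; omega) ⟨m, by simp only; omega⟩
  rw [h1]
  congr 1

lemma isMT_iff_bot {n : ℕ} {k : Fin n → ℤ} {a : (j : Fin n) → Fin ((j : ℕ) + 1) → ℤ} :
    IsMonotoneTriangle n k a ↔ (bot a = k ∧ IsMonotoneTriangle n (bot a) a) := by
  constructor
  · intro h
    have := isMT_bot h
    exact ⟨this, by rw [this]; exact h⟩
  · rintro ⟨h1, h2⟩
    rw [h1] at h2
    exact h2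

lemma isMT_app {n : ℕ} (l : Fin n → ℤ) (k : Fin (n + 1) → ℤ) (hk : StrictMono k)
    (a : (j : Fin n) → Fin ((j : ℕ) + 1) → ℤ) (ha : IsMonotoneTriangle n l a)
    (hl : l ∈ lset n k) : IsMonotoneTriangle (n + 1) k (app a k) := by
  rw [mem_lset] at hl
  refine ⟨?_, ?_, ?_⟩
  · rintro ⟨j, hj⟩
    by_cases h : j < n
    · rw [app_lt a k j h hj]
      exact ha.1 ⟨j, h⟩
    · have : j = n := by omega
      subst this
      rw [app_last]
      exact hk
  · rintro ⟨j, hj⟩ h m
    simp only at h
    have hjn : j < n := by omega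
    by_cases h2 : j + 1 < n
    · have h3 := ha.2.1 ⟨j, hjn⟩ h2 m
      have e1 := app_lt a k j hjn hj
      have e2 := app_lt a k (j + 1) h2 h
      simp only
      rw [e1, e2]
      exact h3
    · have hn : n = j + 1 := by omega
      subst hn
      have e1 := app_lt a k j hjn hj
      have e2 := app_last a k h
      simp only
      rw [e1, e2]
      have h4 := ha.2.2 ⟨j, hjn⟩ rfl m
      have h5 := hl.1 m
      rw [h4]
      exact h5
  · rintro ⟨j, hj⟩ h m
    simp only at h
    have : j = n := by omega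
    subst this
    rw [app_last]
    rfl

lemma isMT_init {n : ℕ} (k : Fin (n + 1) → ℤ)
    (a : (j : Fin (n + 1)) → Fin ((j : ℕ) + 1) → ℤ) (ha : IsMonotoneTriangle (n + 1) k a) :
    ∃ (l : Fin n → ℤ) (a' : (j : Fin n) → Fin ((j : ℕ) + 1) → ℤ), l ∈ lset n k ∧
      IsMonotoneTriangle n l a' ∧ a = app a' k := by
  refine ⟨bot (fun j => a ⟨j, by have := j.2; omega⟩), fun j => a ⟨j, by have := j.2; omega⟩,
    ?_, ?_, ?_⟩
  · rw [mem_lset]
    rcases n with _ | n
    · exact ⟨fun i => i.elim0, fun i => i.elim0⟩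
    · constructor
      · intro i
        have h1 := ha.2.1 ⟨n, by omega⟩ (by simp) i
        have h2 := ha.2.2 ⟨n + 1, by omega⟩ rfl
        have h3 := h2 i.castSucc
        have h4 := h2 i.succ
        rw [← show k (Fin.cast rfl i.castSucc) = k i.castSucc from rfl,
          ← show k (Fin.cast rfl i.succ) = k i.succ from rfl, ← h3, ← h4]
        exact h1
      · have h1 := ha.1 ⟨n, by omega⟩
        exact h1
  · refine ⟨?_, ?_, ?_⟩
    · intro j
      exact ha.1 ⟨j, by have := j.2; omega⟩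
    · intro j h m
      exact ha.2.1 ⟨j, by have := j.2; omega⟩ (by simp only; omega) m
    · intro j h m
      obtain ⟨j, hj⟩ := j
      simp only at h
      subst h
      rfl
  · funext j
    obtain ⟨j, hj⟩ := j
    by_cases h : j < n
    · rw [app_lt _ _ j h hj]
    · have : j = n := by omega
      subst this
      rw [app_last]
      funext m
      exact ha.2.2 ⟨j, hj⟩ rfl m

/-- the recursion bijection -/
noncomputable def recEquiv {n : ℕ} (k : Fin (n + 1) → ℤ) (hk : StrictMono k) :
    (Σ l : {l // l ∈ lset n k}, {a : (j : Fin n) → Fin ((j : ℕ) + 1) → ℤ //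
      IsMonotoneTriangle n l.1 a}) ≃
    {a : (j : Fin (n + 1)) → Fin ((j : ℕ) + 1) → ℤ // IsMonotoneTriangle (n + 1) k a} := by
  refine Equiv.ofBijective (fun x => ⟨app x.2.1 k, isMT_app x.1.1 k hk x.2.1 x.2.2 x.1.2⟩) ⟨?_, ?_⟩
  · rintro ⟨⟨l, hl⟩, ⟨a, ha⟩⟩ ⟨⟨l', hl'⟩, ⟨a', ha'⟩⟩ h
    simp only [Subtype.mk.injEq] at h
    have haa : a = a' := by
      funext j
      have := congrFun h ⟨j, by have := j.2; omega⟩
      rw [app_lt _ _ _ j.2, app_lt _ _ _ j.2] at this
      exact this
    subst haa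
    have hll : l = l' := (isMT_bot ha).symm.trans (isMT_bot ha')
    subst hll
    rfl
  · rintro ⟨a, ha⟩
    obtain ⟨l, a', hl, ha', h⟩ := isMT_init k a ha
    exact ⟨⟨⟨l, hl⟩, ⟨a', ha'⟩⟩, Subtype.ext h.symm⟩

lemma finite_MT (n : ℕ) (k : Fin n → ℤ) :
    Finite {a : (j : Fin n) → Fin ((j : ℕ) + 1) → ℤ // IsMonotoneTriangle n k a} := by
  induction n with
  | zero =>
    have : Subsingleton {a : (j : Fin 0) → Fin ((j : ℕ) + 1) → ℤ // IsMonotoneTriangle 0 k a} := by
      refine ⟨fun a b => Subtype.ext ?_⟩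
      funext j
      exact j.elim0
    infer_instance
  | succ n ih =>
    by_cases hk : StrictMono k
    · have : ∀ l : {l // l ∈ lset n k}, Finite {a : (j : Fin n) → Fin ((j : ℕ) + 1) → ℤ //
        IsMonotoneTriangle n l.1 a} := fun l => ih l.1
      exact Finite.of_equiv _ (recEquiv k hk)
    · have : IsEmpty {a : (j : Fin (n + 1)) → Fin ((j : ℕ) + 1) → ℤ //
          IsMonotoneTriangle (n + 1) k a} := by
        refine ⟨fun a => hk ?_⟩
        have h1 := a.2.1 (Fin.last n)
        have h2 := a.2.2.2 (Fin.last n) rfl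
        have h3 : a.1 (Fin.last n) = k := by
          funext m
          exact h2 m
        rw [h3] at h1
        exact h1
      infer_instance

theorem count_eq_alpha (n : ℕ) (k : Fin n → ℤ) (hk : StrictMono k) :
    (monotoneTriangleCount n k : ℤ) = alpha n k := by
  induction n with
  | zero =>
    have h1 : monotoneTriangleCount 0 k = 1 := by
      unfold monotoneTriangleCount
      rw [Nat.card_eq_one_iff_unique]
      refine ⟨⟨fun a b => Subtype.ext ?_⟩, ⟨⟨fun j => j.elim0, ?_⟩⟩⟩
      · funext j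
        exact j.elim0
      · exact ⟨fun j => j.elim0, fun j => j.elim0, fun j => j.elim0⟩
    rw [h1]
    simp [alpha, Phi, aa, detF]
  | succ n ih =>
    rw [alpha_rec n k hk]
    unfold T
    have : ∀ l : {l // l ∈ lset n k}, Finite {a : (j : Fin n) → Fin ((j : ℕ) + 1) → ℤ //
        IsMonotoneTriangle n l.1 a} := fun l => finite_MT n l.1
    have h1 : monotoneTriangleCount (n + 1) k = ∑ l ∈ lset n k, monotoneTriangleCount n l := by
      unfold monotoneTriangleCount
      rw [← Nat.card_congr (recEquiv k hk), Nat.card_sigma]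
      exact Finset.sum_coe_sort (lset n k) (fun l => Nat.card
        {a : (j : Fin n) → Fin ((j : ℕ) + 1) → ℤ // IsMonotoneTriangle n l a})
    rw [h1]
    push_cast
    refine Finset.sum_congr rfl (fun l hl => ?_)
    rw [mem_lset] at hl
    exact ih l hl.2

/-- reflection -/
lemma count_reflect (n : ℕ) (k : Fin n → ℤ) :
    monotoneTriangleCount n (fun i => - k i.rev) = monotoneTriangleCount n k := by
  have key : ∀ (n : ℕ) (k : Fin n → ℤ) (a : (j : Fin n) → Fin ((j : ℕ) + 1) → ℤ),
      IsMonotoneTriangle n k a → IsMonotoneTriangle n (fun i => - k i.rev)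
        (fun j m => - a j m.rev) := by
    intro n k a ha
    refine ⟨?_, ?_, ?_⟩
    · intro j x y hxy
      have := ha.1 j (Fin.rev_lt_rev.mpr hxy)
      simp only
      omega
    · intro j h m
      have := ha.2.1 j h m.rev
      simp only [Fin.rev_castSucc, Fin.rev_succ]
      omega
    · intro j h m
      have := ha.2.2 j h m.rev
      simp only
      rw [this]
      obtain ⟨j, hj⟩ := j
      simp only at h
      subst h
      rfl
  unfold monotoneTriangleCount
  refine Nat.card_congr ⟨fun a => ⟨fun j m => - a.1 j m.rev, ?_⟩,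
    fun a => ⟨fun j m => - a.1 j m.rev, key _ _ _ a.2⟩, ?_, ?_⟩
  · have := key _ _ _ a.2
    simpa using this
  · intro a
    ext j m
    simp
  · intro a
    ext j m
    simp

/-- translation -/
lemma count_translate (n : ℕ) (k : Fin n → ℤ) (c : ℤ) :
    monotoneTriangleCount n (fun i => k i + c) = monotoneTriangleCount n k := by
  have key : ∀ (n : ℕ) (k : Fin n → ℤ) (c : ℤ) (a : (j : Fin n) → Fin ((j : ℕ) + 1) → ℤ),
      IsMonotoneTriangle n k a → IsMonotoneTriangle n (fun i => k i + c)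
        (fun j m => a j m + c) := by
    intro n k c a ha
    refine ⟨?_, ?_, ?_⟩
    · intro j x y hxy
      have := ha.1 j hxy
      simp only
      omega
    · intro j h m
      have := ha.2.1 j h m
      simp only
      omega
    · intro j h m
      have := ha.2.2 j h m
      simp only
      rw [this]
  unfold monotoneTriangleCount
  refine Nat.card_congr ⟨fun a => ⟨fun j m => a.1 j m + (-c), ?_⟩,
    fun a => ⟨fun j m => a.1 j m + c, key _ _ _ _ a.2⟩, ?_, ?_⟩
  · have := key _ _ (-c) _ a.2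
    simpa using this
  · intro a
    ext j m
    simp
  · intro a
    ext j m
    simp

end Pool.Agent.H.MP_16be1b_co
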