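import Pool.Agent.H.MP_16be1b_co.Tsum

set_option autoImplicit false

namespace Pool.Agent.H.MP_16be1b_co

open MvPolynomial Finset

/-- `1 + E_p Δ_q` -/
noncomputable def S {n : ℕ} (p q : Fin n) : MvPolynomial (Fin n) ℤ := 1 - X p + X p * X q

/-- the operator -/
noncomputable def Phi (n : ℕ) : MvPolynomial (Fin n) ℤ :=
  ∏ p : Fin n, ∏ q : Fin n, if p < q then S p q else 1

/-- alternant -/
noncomputable def detF {n : ℕ} (g : Fin n → ℤ → ℤ) : Fn n :=
  fun k => Matrix.det (Matrix.of fun i j : Fin n => g j (k i))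

lemma permL_detF {n : ℕ} (σ : Equiv.Perm (Fin n)) (g : Fin n → ℤ → ℤ) :
    permL σ (detF g) = ((Equiv.Perm.sign σ : ℤˣ) : ℤ) • detF g := by
  funext k
  change Matrix.det (Matrix.of fun i j : Fin n => g j (k (σ i))) = _
  have := Matrix.det_permute σ (Matrix.of fun i j : Fin n => g j (k i))
  rw [Pi.smul_apply, smul_eq_mul]
  unfold detF
  simp only [Int.cast_id] at this
  rw [← this]
  rfl

lemma act_S {n : ℕ} (i j : Fin n) (F : Fn n) (k : Fin n → ℤ) :
    act n (S j i) F k = F k - F (k + Pi.single j 1) + F (k + Pi.single i 1 + Pi.single j 1) := by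
  unfold S
  rw [act_add, act_sub, act_one, act_mul]
  simp only [Pi.add_apply, Pi.sub_apply]
  rw [act_X, act_X, act_X]
  rw [add_right_comm k (Pi.single j 1) (Pi.single i 1)]

lemma rename_S {n m : ℕ} (f : Fin n → Fin m) (p q : Fin n) : rename f (S p q) = S (f p) (f q) := by
  simp [S]

lemma swap_Phi {n : ℕ} (i j : Fin n) (hij : (j : ℕ) = (i : ℕ) + 1) :
    rename (Equiv.swap i j) (S j i * Phi n) = S j i * Phi n := by
  rw [map_mul, rename_S]
  simp only [Equiv.swap_apply_left, Equiv.swap_apply_right]
  set τ := Equiv.swap i j with hτ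
  have hτ2 : ∀ x, τ (τ x) = x := by intro x; simp [hτ]
  have hne : i ≠ j := by intro h; rw [h] at hij; omega
  have e1 : rename τ (Phi n) = ∏ x : Fin n × Fin n, if τ x.1 < τ x.2 then S x.1 x.2 else 1 := by
    unfold Phi
    rw [map_prod, Fintype.prod_prod_type]
    refine Fintype.prod_equiv τ _ _ (fun p => ?_)
    rw [map_prod]
    refine Fintype.prod_equiv τ _ _ (fun q => ?_)
    simp only [hτ2]
    split_ifs with h
    · rw [rename_S]
    · rw [map_one]
  have e2 : Phi n = ∏ x : Fin n × Fin n, if x.1 < x.2 then S x.1 x.2 else 1 := by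
    unfold Phi
    rw [Fintype.prod_prod_type]
  rw [e1, e2]
  have f1 : (S i j : MvPolynomial (Fin n) ℤ) = ∏ x : Fin n × Fin n, if x = (i, j) then S i j else 1 := by
    rw [Finset.prod_ite_eq']
    simp
  have f2 : (S j i : MvPolynomial (Fin n) ℤ) = ∏ x : Fin n × Fin n, if x = (j, i) then S j i else 1 := by
    rw [Finset.prod_ite_eq']
    simp
  conv_lhs => rw [f1]
  conv_rhs => rw [f2]
  rw [← Finset.prod_mul_distrib, ← Finset.prod_mul_distrib]
  refine Finset.prod_congr rfl (fun x _ => ?_)
  obtain ⟨p, q⟩ := x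
  by_cases h1 : (p, q) = (i, j)
  · have hp : p = i := (Prod.mk.inj h1).1
    have hq : q = j := (Prod.mk.inj h1).2
    subst hp hq
    have h2 : ¬ ((p, q) = (q, p)) := by
      intro h; exact hne (Prod.mk.inj h).1
    have h3 : p < q := by rw [Fin.lt_def]; omega
    have h4 : ¬ (τ p < τ q) := by
      simp only [hτ, Equiv.swap_apply_left, Equiv.swap_apply_right]
      exact not_lt.mpr (le_of_lt h3)
    simp [h2, h3, h4]
  · by_cases h2 : (p, q) = (j, i)
    · have hp : p = j := (Prod.mk.inj h2).1
      have hq : q = i := (Prod.mk.inj h2).2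
      subst hp hq
      have h3 : q < p := by rw [Fin.lt_def]; omega
      have h4 : τ p < τ q := by
        simp only [hτ, Equiv.swap_apply_left, Equiv.swap_apply_right]
        exact h3
      simp [h1, h4, not_lt.mpr (le_of_lt h3)]
    · rw [if_neg h1, if_neg h2]
      have h3 : (τ p < τ q) ↔ p < q := by
        simp only [hτ, Equiv.swap_apply_def]
        have h1' : ¬ (p = i ∧ q = j) := by
          rintro ⟨rfl, rfl⟩; exact h1 rfl
        have h2' : ¬ (p = j ∧ q = i) := by
          rintro ⟨rfl, rfl⟩; exact h2 rfl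
        simp only [Fin.ext_iff] at h1' h2'
        split_ifs with a b c d e f g <;>
          simp only [Fin.ext_iff, Fin.lt_def] at * <;> omega
      simp only [h3]

lemma PP_act_Phi {n : ℕ} (g : Fin n → ℤ → ℤ) : PP (act n (Phi n) (detF g)) := by
  intro i j hij k hk
  have hne : i ≠ j := by intro h; rw [h] at hij; omega
  rw [← act_S, ← act_mul]
  set Ψ := S j i * Phi n with hΨ
  have h1 := act_permL (Equiv.swap i j) Ψ (detF g)
  rw [Equiv.symm_swap, hΨ, swap_Phi i j hij, ← hΨ, permL_detF, Equiv.Perm.sign_swap hne] at h1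
  have h2 := congrFun h1 k
  have h3 : (fun l => k ((Equiv.swap i j) l)) = k := by
    funext l
    rw [Equiv.swap_apply_def]
    split_ifs with a b
    · rw [a, hk]
    · rw [b, hk]
    · rfl
  have h4 : (permL (Equiv.swap i j)) (act n Ψ (detF g)) k = act n Ψ (detF g) k := by
    change act n Ψ (detF g) (fun l => k ((Equiv.swap i j) l)) = _
    rw [h3]
  rw [h4, map_smul] at h2
  simp at h2
  omega

/-- rows in `s` replaced by differences -/
lemma act_prod_detF {n : ℕ} (g g' : Fin n → ℤ → ℤ) (hg : ∀ j x, g' j x = g j (x + 1) - g j x)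
    (s : Finset (Fin n)) (k : Fin n → ℤ) :
    act n (∏ i ∈ s, (X i - 1)) (detF g) k =
      Matrix.det (Matrix.of fun i j : Fin n => if i ∈ s then g' j (k i) else g j (k i)) := by
  induction s using Finset.induction_on generalizing k with
  | empty => simp [detF]
  | insert a s ha ih =>
    rw [Finset.prod_insert ha, act_mul, act_sub, act_one]
    simp only [Pi.sub_apply]
    rw [act_X, ih, ih]
    set M : Matrix (Fin n) (Fin n) ℤ :=
      Matrix.of fun i j : Fin n => if i ∈ insert a s then g' j (k i) else g j (k i) with hM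
    have h1 : (Matrix.of fun i j : Fin n => if i ∈ s then g' j ((k + Pi.single a 1 : Fin n → ℤ) i)
        else g j ((k + Pi.single a 1 : Fin n → ℤ) i)) = M.updateRow a (fun j => g j (k a + 1)) := by
      ext i j
      by_cases h : i = a
      · subst h
        simp [Matrix.updateRow_self, ha]
      · rw [Matrix.updateRow_ne h]
        simp [hM, h]
    have h2 : (Matrix.of fun i j : Fin n => if i ∈ s then g' j (k i) else g j (k i)) =
        M.updateRow a (fun j => g j (k a)) := by
      ext i j
      by_cases h : i = a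
      · subst h
        simp [Matrix.updateRow_self, ha]
      · rw [Matrix.updateRow_ne h]
        simp [hM, h]
    have h3 : M = M.updateRow a (fun j => g' j (k a)) := by
      ext i j
      by_cases h : i = a
      · subst h
        simp [hM, Matrix.updateRow_self]
      · rw [Matrix.updateRow_ne h]
    rw [h1, h2]
    have h4 := Matrix.det_updateRow_add M a (fun j => g' j (k a)) (fun j => g j (k a))
    have h5 : ((fun j => g' j (k a)) + fun j => g j (k a)) = fun j => g j (k a + 1) := by
      funext j
      simp [hg]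
    rw [h5, ← h3] at h4
    rw [h4]
    ring

/-- `∏_{i<j} (k_j - k_i)/(j-i)` as a determinant -/
noncomputable def aa (n : ℕ) : Fn n := detF (fun j x => Ring.choose x (j : ℕ))

/-- antidifference of `aa` -/
noncomputable def bb (n : ℕ) : Fn n := detF (fun j x => Ring.choose x ((j : ℕ) + 1))

lemma DD_bb (n : ℕ) : DD (bb n) = aa n := by
  funext k
  unfold DD bb aa
  rw [act_prod_detF _ (fun j x => Ring.choose x (j : ℕ))]
  · simp [detF]
  · intro j x
    rw [Ring.choose_succ_succ]
    ring

lemma aa_succ (n : ℕ) : aa (n + 1) = ∑ m : Fin (n + 1), ((-1 : ℤ) ^ (m : ℕ)) • dropL m (bb n) := by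
  funext k
  unfold aa detF
  rw [Matrix.det_succ_column_zero]
  rw [Finset.sum_apply]
  refine Finset.sum_congr rfl (fun m _ => ?_)
  simp only [Matrix.of_apply, Fin.val_zero, Ring.choose_zero_right, mul_one, Pi.smul_apply,
    smul_eq_mul]
  congr 1

lemma spec_Phi {n : ℕ} (m : Fin (n + 1)) :
    spec m (Phi (n + 1)) = (∏ i : Fin n, if i.castSucc < m then 1 else X i) * Phi n := by
  unfold Phi
  rw [map_prod, Fin.prod_univ_succAbove _ m, map_prod, Fin.prod_univ_succAbove _ m]
  congr 1
  · simp only [lt_irrefl, if_false, map_one, one_mul]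
    refine Finset.prod_congr rfl (fun i _ => ?_)
    have : m < m.succAbove i ↔ ¬ (i.castSucc < m) := by
      rw [Fin.lt_succAbove_iff_le_castSucc, not_lt]
    by_cases h : i.castSucc < m
    · rw [if_neg (by rw [this]; exact not_not.mpr h), if_pos h, map_one]
    · rw [if_pos (by rw [this]; exact h), if_neg h]
      simp [S, spec_X_self, spec_X_succAbove]
  · refine Finset.prod_congr rfl (fun i _ => ?_)
    rw [map_prod, Fin.prod_univ_succAbove _ m]
    have h1 : spec m (if m.succAbove i < m then S (m.succAbove i) m else 1) = 1 := by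
      split_ifs
      · simp [S, spec_X_self, spec_X_succAbove]
      · simp
    rw [h1, one_mul]
    refine Finset.prod_congr rfl (fun j _ => ?_)
    simp only [Fin.succAbove_lt_succAbove_iff]
    split_ifs
    · simp [S, spec_X_succAbove]
    · simp

lemma act_prod_X {n : ℕ} (s : Finset (Fin n)) (f : Fn n) (k : Fin n → ℤ) :
    act n (∏ i ∈ s, X i) f k = f (fun i => k i + if i ∈ s then 1 else 0) := by
  induction s using Finset.induction_on generalizing k with
  | empty => simp
  | insert a s ha ih =>
    rw [Finset.prod_insert ha, act_mul, act_X, ih]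
    congr 1
    funext i
    simp only [Pi.add_apply, Finset.mem_insert]
    by_cases h : i = a
    · subst h; simp [ha]
    · simp [h]

lemma act_prod_ite {n : ℕ} (c : Fin n → Prop) [DecidablePred c] (f : Fn n) (k : Fin n → ℤ) :
    act n (∏ i : Fin n, if c i then 1 else X i) f k = f (fun i => k i + if c i then 0 else 1) := by
  have h : (∏ i : Fin n, if c i then (1 : MvPolynomial (Fin n) ℤ) else X i) =
      ∏ i ∈ Finset.univ.filter (fun i => ¬ c i), X i := by
    rw [Finset.prod_filter]
    refine Finset.prod_congr rfl (fun i _ => ?_)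
    by_cases hc : c i <;> simp [hc]
  rw [h, act_prod_X]
  congr 1
  funext i
  by_cases hc : c i <;> simp [hc]

/-- the monotone triangle function on integer points by Fischer's operator formula -/
noncomputable def alpha (n : ℕ) : Fn n := act n (Phi n) (aa n)

lemma alpha_succ_eq_U (n : ℕ) (k : Fin (n + 1) → ℤ) :
    alpha (n + 1) k = U (act n (Phi n) (bb n)) k := by
  unfold alpha U
  rw [aa_succ, map_sum, Finset.sum_apply]
  refine Finset.sum_congr rfl (fun m _ => ?_)
  rw [map_smul, act_dropL, spec_Phi, act_mul]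
  simp only [Pi.smul_apply, smul_eq_mul]
  congr 1
  change act n _ _ (fun i => k (m.succAbove i)) = _
  rw [act_prod_ite]

lemma alpha_rec (n : ℕ) (k : Fin (n + 1) → ℤ) (hk : StrictMono k) :
    alpha (n + 1) k = T (alpha n) k := by
  rw [alpha_succ_eq_U]
  have h1 : PP (act n (Phi n) (bb n)) := PP_act_Phi _
  rw [← T_DD _ h1 k]
  · unfold DD
    rw [act_comm]
    have := DD_bb n
    unfold DD at this
    rw [this]
    rfl
  · intro h
    exact le_of_lt (hk (by simp [Fin.lt_def]))
  · intro i j _ hij
    exact hk hij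

end Pool.Agent.H.MP_16be1b_co
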