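import Pool.Agent.H.MP_16be1b_co.Count

set_option autoImplicit false

namespace Pool.Agent.H.MP_16be1b_co

open MvPolynomial Finset

/-- polynomial functions -/
def IsPolyFn {n : ℕ} (f : Fn n) : Prop :=
  ∃ P : MvPolynomial (Fin n) ℚ, ∀ k : Fin n → ℤ, MvPolynomial.eval (fun i => (k i : ℚ)) P = (f k : ℚ)

lemma exists_poly_choose (j : ℕ) :
    ∃ p : Polynomial ℚ, ∀ x : ℤ, p.eval (x : ℚ) = ((Ring.choose x j : ℤ) : ℚ) := by
  refine ⟨Polynomial.C ((j.factorial : ℚ)⁻¹) * descPochhammer ℚ j, fun x => ?_⟩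
  have h1 := Ring.descPochhammer_eq_factorial_smul_choose x j
  rw [← Polynomial.eval_eq_smeval] at h1
  have h2 : (descPochhammer ℚ j).eval (x : ℚ) = (((descPochhammer ℤ j).eval x : ℤ) : ℚ) := by
    rw [← descPochhammer_map (Int.castRingHom ℚ) j]
    rw [Polynomial.eval_map, Polynomial.eval₂_at_intCast]
    simp
  rw [Polynomial.eval_mul, Polynomial.eval_C, h2, h1]
  have h3 : (j.factorial : ℚ) ≠ 0 := by
    exact_mod_cast Nat.factorial_ne_zero j
  rw [nsmul_eq_mul]
  push_cast
  field_simp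

lemma isPolyFn_detF {n : ℕ} (g : Fin n → ℤ → ℤ)
    (hg : ∀ j, ∃ p : Polynomial ℚ, ∀ x : ℤ, p.eval (x : ℚ) = (g j x : ℚ)) : IsPolyFn (detF g) := by
  choose p hp using hg
  refine ⟨Matrix.det (Matrix.of fun i j : Fin n => Polynomial.aeval (X i : MvPolynomial (Fin n) ℚ) (p j)),
    fun k => ?_⟩
  rw [RingHom.map_det]
  unfold detF
  have h1 := RingHom.map_det (Int.castRingHom ℚ) (Matrix.of fun i j : Fin n => g j (k i))
  have h2 : ((Matrix.det (Matrix.of fun i j : Fin n => g j (k i)) : ℤ) : ℚ) =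
    (Int.castRingHom ℚ) (Matrix.det (Matrix.of fun i j : Fin n => g j (k i))) := rfl
  rw [h2, h1]
  congr 1
  ext i j
  simp only [RingHom.mapMatrix_apply, Matrix.map_apply, Matrix.of_apply]
  change _ = ((g j (k i) : ℤ) : ℚ)
  rw [← hp j (k i)]
  have h3 : MvPolynomial.eval (fun i => (k i : ℚ)) (Polynomial.aeval (X i : MvPolynomial (Fin n) ℚ) (p j))
      = Polynomial.aeval (MvPolynomial.eval (fun i => (k i : ℚ)) (X i)) (p j) := by
    have := Polynomial.aeval_algHom_apply (MvPolynomial.aeval (R := ℚ) (fun i => (k i : ℚ)))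
      (X i : MvPolynomial (Fin n) ℚ) (p j)
    rw [← MvPolynomial.coe_aeval_eq_eval]
    exact this.symm
  rw [h3, MvPolynomial.eval_X, Polynomial.coe_aeval_eq_eval]

lemma isPolyFn_add {n : ℕ} {f g : Fn n} (hf : IsPolyFn f) (hg : IsPolyFn g) : IsPolyFn (f + g) := by
  obtain ⟨P, hP⟩ := hf
  obtain ⟨Q, hQ⟩ := hg
  exact ⟨P + Q, fun k => by simp [hP, hQ]⟩

lemma isPolyFn_smul {n : ℕ} {f : Fn n} (c : ℤ) (hf : IsPolyFn f) : IsPolyFn (c • f) := by
  obtain ⟨P, hP⟩ := hf
  exact ⟨C (c : ℚ) * P, fun k => by simp [hP]⟩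

/-- compose with an affine map -/
lemma isPolyFn_comp {n m : ℕ} {f : Fn n} (hf : IsPolyFn f) (A : Fin n → MvPolynomial (Fin m) ℚ)
    (φ : (Fin m → ℤ) → (Fin n → ℤ))
    (hA : ∀ k i, MvPolynomial.eval (fun i => (k i : ℚ)) (A i) = (φ k i : ℚ)) :
    IsPolyFn (fun k => f (φ k)) := by
  obtain ⟨P, hP⟩ := hf
  refine ⟨MvPolynomial.bind₁ A P, fun k => ?_⟩
  rw [← hP]
  have : MvPolynomial.eval (fun i => (k i : ℚ)) (MvPolynomial.bind₁ A P) =
      MvPolynomial.eval (fun i => MvPolynomial.eval (fun i => (k i : ℚ)) (A i)) P := by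
    rw [← MvPolynomial.coe_aeval_eq_eval, ← MvPolynomial.coe_aeval_eq_eval]
    exact MvPolynomial.aeval_bind₁ _ _ _
  rw [this]
  simp only [hA]

lemma isPolyFn_act {n : ℕ} (Ψ : MvPolynomial (Fin n) ℤ) {f : Fn n} (hf : IsPolyFn f) :
    IsPolyFn (act n Ψ f) := by
  induction Ψ using MvPolynomial.induction_on generalizing f with
  | C a =>
    rw [act_C]
    exact isPolyFn_smul a hf
  | add p q hp hq =>
    rw [act_add]
    exact isPolyFn_add (hp hf) (hq hf)
  | mul_X p i hp =>
    rw [act_mul]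
    apply hp
    have : act n (X i) f = fun k => f (k + Pi.single i 1) := by
      funext k
      rw [act_X]
    rw [this]
    refine isPolyFn_comp hf (fun j => X j + C (((Pi.single i 1 : Fin n → ℤ) j : ℤ) : ℚ)) _ ?_
    intro k j
    simp

lemma isPolyFn_alpha (n : ℕ) : IsPolyFn (alpha n) := by
  unfold alpha aa
  apply isPolyFn_act
  apply isPolyFn_detF
  intro j
  exact exists_poly_choose _

/-- Zariski density of strictly increasing integer tuples -/
lemma eq_zero_of_strictMono {n : ℕ} (P : MvPolynomial (Fin n) ℚ)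
    (h : ∀ k : Fin n → ℤ, StrictMono k → MvPolynomial.eval (fun i => (k i : ℚ)) P = 0) :
    P = 0 := by
  have h1 : ∀ k : Fin n → ℤ, MvPolynomial.eval (fun i => (k i : ℚ)) P = 0 := by
    intro k
    set q : Polynomial ℚ := MvPolynomial.aeval
      (fun i : Fin n => Polynomial.C (k i : ℚ) + Polynomial.X * Polynomial.C ((i : ℕ) : ℚ)) P with hq
    have hq1 : ∀ t : ℚ, q.eval t = MvPolynomial.eval (fun i => (k i : ℚ) + t * ((i : ℕ) : ℚ)) P := by
      intro t
      have := MvPolynomial.comp_aeval_apply (B := ℚ)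
        (fun i : Fin n => Polynomial.C (k i : ℚ) + Polynomial.X * Polynomial.C ((i : ℕ) : ℚ))
        (Polynomial.aeval t) P
      rw [← hq] at this
      rw [← Polynomial.coe_aeval_eq_eval, this, ← MvPolynomial.coe_aeval_eq_eval]
      simp
    have hq2 : q = 0 := by
      obtain ⟨B, hB⟩ : ∃ B : ℕ, ∀ i j : Fin n, k i - k j < B := by
        obtain ⟨B, hB⟩ := (Set.finite_range (fun x : Fin n × Fin n => (k x.1 - k x.2).toNat)).bddAbove
        refine ⟨B + 1, fun i j => ?_⟩
        have := hB ⟨(i, j), rfl⟩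
        simp only at this
        omega
      apply Polynomial.eq_zero_of_infinite_isRoot
      apply Set.Infinite.mono (s := Set.range (fun m : ℕ => ((B + m : ℕ) : ℚ)))
      · rintro _ ⟨m, rfl⟩
        simp only [Set.mem_ofPred_eq, Polynomial.IsRoot]
        rw [hq1]
        have h2 := h (fun i => k i + ((B + m : ℕ) : ℤ) * ((i : ℕ) : ℤ)) ?_
        · push_cast at h2 ⊢
          exact h2
        · intro i j hij
          have h3 := hB i j
          simp only
          have h4 : ((i : ℕ) : ℤ) + 1 ≤ ((j : ℕ) : ℤ) := by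
            have := Fin.lt_def.mp hij
            omega
          have h5 : (0 : ℤ) ≤ ((B + m : ℕ) : ℤ) := by positivity
          push_cast at h5 ⊢
          nlinarith
      · apply Set.infinite_range_of_injective
        intro a b hab
        simp only at hab
        have : (B + a : ℕ) = (B + b : ℕ) := by exact_mod_cast hab
        omega
    have h3 := hq1 0
    rw [hq2] at h3
    simp at h3
    exact h3.symm
  refine MvPolynomial.funext_set (fun _ => Set.range (fun z : ℤ => (z : ℚ))) ?_ ?_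
  · intro i
    apply Set.infinite_range_of_injective
    intro a b hab
    simpa using hab
  · intro x hx
    have : ∀ i, ∃ z : ℤ, (z : ℚ) = x i := fun i => hx i (Set.mem_univ i)
    choose z hz using this
    have hx2 : x = fun i => (z i : ℚ) := by
      funext i
      rw [hz]
    rw [hx2, h1, map_zero]

lemma polyFn_ext {n : ℕ} {f g : Fn n} (hf : IsPolyFn f) (hg : IsPolyFn g)
    (h : ∀ k, StrictMono k → f k = g k) : f = g := by
  obtain ⟨P, hP⟩ := hf
  obtain ⟨Q, hQ⟩ := hg
  have : P - Q = 0 := by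
    apply eq_zero_of_strictMono
    intro k hk
    rw [map_sub, hP, hQ, h k hk, sub_self]
  have h2 : P = Q := sub_eq_zero.mp this
  funext k
  have h3 := hP k
  rw [h2, hQ] at h3
  exact_mod_cast h3.symm

theorem alpha_reflect (n : ℕ) (k : Fin n → ℤ) : alpha n (fun i => - k i.rev) = alpha n k := by
  have h : (fun k : Fin n → ℤ => alpha n (fun i => - k i.rev)) = alpha n := by
    apply polyFn_ext
    · exact isPolyFn_comp (isPolyFn_alpha n) (fun i => - X i.rev) _ (fun k i => by simp)
    · exact isPolyFn_alpha n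
    · intro k hk
      rw [← count_eq_alpha n k hk, ← count_eq_alpha n _ (by
        intro i j hij
        have := hk (Fin.rev_lt_rev.mpr hij)
        simp only
        omega), count_reflect]
  exact congrFun h k

theorem alpha_translate (n : ℕ) (k : Fin n → ℤ) (c : ℤ) :
    alpha n (fun i => k i + c) = alpha n k := by
  have h : (fun k : Fin n → ℤ => alpha n (fun i => k i + c)) = alpha n := by
    apply polyFn_ext
    · exact isPolyFn_comp (isPolyFn_alpha n) (fun i => X i + C (c : ℚ)) _ (fun k i => by simp)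
    · exact isPolyFn_alpha n
    · intro k hk
      rw [← count_eq_alpha n k hk, ← count_eq_alpha n _ (by
        intro i j hij
        have := hk hij
        simp only
        omega), count_translate]
  exact congrFun h k

theorem alpha_symm (n : ℕ) (i : ℤ) :
    alpha (2 * n + 1) (args n i) = alpha (2 * n + 1) (args n (3 * n + 3 - i)) := by
  have h1 := alpha_circ (2 * n) (args n i)
  rw [pow_mul, neg_one_sq, one_pow, one_mul] at h1
  rw [← h1, ← alpha_reflect, ← alpha_translate _ _ ((n : ℤ) + 2)]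
  congr 1
  funext j
  refine Fin.cases ?_ (fun j => ?_) j
  · rw [Fin.rev_zero, finRotate_last]
    simp only [Pi.add_apply, Pi.single_eq_same, args, Fin.val_zero, if_true]
    push_cast
    ring
  · have hj := j.2
    have h2 : (finRotate (2 * n + 1)) (Fin.rev j.succ) = Fin.succ (Fin.rev j) := by
      rw [Fin.rev_succ]
      exact finRotate_of_lt (by simp; omega)
    rw [h2]
    have h3 : (Pi.single 0 (-(((2 * n : ℕ) : ℤ) + 1)) : Fin (2 * n + 1) → ℤ) (Fin.succ (Fin.rev j)) = 0 := by
      rw [Pi.single_eq_of_ne]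
      exact Fin.succ_ne_zero _
    rw [Pi.add_apply, h3, add_zero]
    have h5 : ((Fin.succ (Fin.rev j) : Fin (2 * n + 1)) : ℕ) = 2 * n - (j + 1) + 1 := by
      rw [Fin.val_succ, Fin.val_rev]
    have h6 : ((Fin.succ j : Fin (2 * n + 1)) : ℕ) = j + 1 := Fin.val_succ j
    simp only [args]
    rw [h5, h6]
    split_ifs <;> first | omega | contradiction

end Pool.Agent.H.MP_16be1b_co
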