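import Pool.Agent.H.MP_16be1b_co.Act

set_option autoImplicit false

namespace Pool.Agent.H.MP_16be1b_co

open MvPolynomial Finset

/-- interlacing strictly increasing tuples -/
noncomputable def lset (n : ℕ) (k : Fin (n + 1) → ℤ) : Finset (Fin n → ℤ) :=
  {l ∈ Fintype.piFinset (fun i : Fin n => Finset.Icc (k i.castSucc) (k i.succ)) | StrictMono l}

lemma mem_lset {n : ℕ} (k : Fin (n + 1) → ℤ) (l : Fin n → ℤ) :
    l ∈ lset n k ↔ (∀ i, k i.castSucc ≤ l i ∧ l i ≤ k i.succ) ∧ StrictMono l := by
  simp [lset, Fintype.mem_piFinset]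

/-- monotone triangle summation -/
noncomputable def T {n : ℕ} (A : Fn n) (k : Fin (n + 1) → ℤ) : ℤ := ∑ l ∈ lset n k, A l

lemma T_sub {n : ℕ} (A B : Fn n) (k : Fin (n + 1) → ℤ) : T (A - B) k = T A k - T B k := by
  simp [T, Finset.sum_sub_distrib]

lemma strictMono_cons {n : ℕ} (x : ℤ) (l : Fin n → ℤ) :
    StrictMono (Fin.cons x l : Fin (n + 1) → ℤ) ↔ (∀ i, x < l i) ∧ StrictMono l := by
  constructor
  · intro h
    refine ⟨fun i => ?_, fun i j hij => ?_⟩
    · have := h (Fin.succ_pos i)
      simpa using this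
    · have := h (Fin.succ_lt_succ_iff.mpr hij)
      simpa using this
  · rintro ⟨h1, h2⟩ i j
    refine Fin.cases ?_ (fun i => ?_) i
    · refine Fin.cases ?_ (fun j => ?_) j
      · intro h; exact absurd h (lt_irrefl _)
      · intro _; simpa using h1 j
    · refine Fin.cases ?_ (fun j => ?_) j
      · intro h; exact absurd h (Fin.not_lt_zero _)
      · intro h; simpa using h2 (Fin.succ_lt_succ_iff.mp h)

lemma T_fiber {n : ℕ} (A : Fn (n + 1)) (k : Fin (n + 2) → ℤ) :
    T A k = ∑ x ∈ Finset.Icc (k 0) (k 1), ∑ l ∈ lset (n + 1) k with l 0 = x, A l := by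
  unfold T
  rw [Finset.sum_fiberwise_of_maps_to]
  intro l hl
  rw [mem_lset] at hl
  have := hl.1 0
  simpa using this

lemma T_fiber_lt {n : ℕ} (A : Fn (n + 1)) (k : Fin (n + 2) → ℤ) (x : ℤ)
    (h0 : k 0 ≤ x) (h1 : x < k 1) :
    ∑ l ∈ lset (n + 1) k with l 0 = x, A l = T (consL x A) (Fin.tail k) := by
  unfold T
  refine Finset.sum_nbij' (fun l => Fin.tail l) (fun l => Fin.cons x l) ?_ ?_ ?_ ?_ ?_
  · intro l hl
    rw [Finset.mem_filter, mem_lset] at hl
    rw [mem_lset]
    refine ⟨fun i => ?_, ?_⟩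
    · have := hl.1.1 i.succ
      exact this
    · intro i j hij
      exact hl.1.2 (Fin.succ_lt_succ_iff.mpr hij)
  · intro l hl
    rw [mem_lset] at hl
    rw [Finset.mem_filter, mem_lset]
    refine ⟨⟨fun i => ?_, ?_⟩, by simp⟩
    · refine Fin.cases ?_ (fun i => ?_) i
      · simp only [Fin.cons_zero, Fin.castSucc_zero]
        exact ⟨h0, le_of_lt h1⟩
      · simp only [Fin.cons_succ]
        exact hl.1 i
    · rw [strictMono_cons]
      refine ⟨fun i => ?_, hl.2⟩
      have h2 : k 1 ≤ l i := by
        rcases n with _ | n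
        · exact i.elim0
        · have h3 := (hl.1 0).1
          have h4 : l 0 ≤ l i := hl.2.monotone (Fin.zero_le _)
          exact le_trans h3 h4
      omega
  · intro l hl
    rw [Finset.mem_filter] at hl
    simp only [← hl.2]
    exact Fin.cons_self_tail l
  · intro l _
    simp
  · intro l hl
    rw [Finset.mem_filter] at hl
    simp only [← hl.2, consL_apply]
    rw [Fin.cons_self_tail]

lemma T_fiber_eq {n : ℕ} (A : Fn (n + 1)) (k : Fin (n + 2) → ℤ)
    (h0 : k 0 ≤ k 1) :
    ∑ l ∈ lset (n + 1) k with l 0 = k 1, A l =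
      T (consL (k 1) A) (Fin.cons (k 1 + 1) (Fin.tail (Fin.tail k))) := by
  unfold T
  refine Finset.sum_nbij' (fun l => Fin.tail l) (fun l => Fin.cons (k 1) l) ?_ ?_ ?_ ?_ ?_
  · intro l hl
    rw [Finset.mem_filter, mem_lset] at hl
    rw [mem_lset]
    refine ⟨fun i => ?_, ?_⟩
    · have h3 := hl.1.1 i.succ
      refine ⟨?_, ?_⟩
      · rcases n with _ | n
        · exact i.elim0
        · refine Fin.cases ?_ (fun j => ?_) i
          · simp only [Fin.castSucc_zero, Fin.cons_zero]
            have h4 : l 0 < l (Fin.succ 0) := hl.1.2 (Fin.succ_pos _)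
            rw [hl.2] at h4
            exact h4
          · have h4 := (hl.1.1 j.succ.succ).1
            exact h4
      · exact h3.2
    · intro i j hij
      exact hl.1.2 (Fin.succ_lt_succ_iff.mpr hij)
  · intro l hl
    rw [mem_lset] at hl
    rw [Finset.mem_filter, mem_lset]
    have h5 : ∀ i, k 1 < l i := by
      intro i
      rcases n with _ | n
      · exact i.elim0
      · have h3 := (hl.1 0).1
        simp only [Fin.castSucc_zero, Fin.cons_zero] at h3
        have h4 : l 0 ≤ l i := hl.2.monotone (Fin.zero_le _)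
        omega
    refine ⟨⟨fun i => ?_, ?_⟩, by simp⟩
    · refine Fin.cases ?_ (fun i => ?_) i
      · simp only [Fin.cons_zero, Fin.castSucc_zero]
        exact ⟨h0, le_rfl⟩
      · simp only [Fin.cons_succ]
        refine ⟨?_, (hl.1 i).2⟩
        rcases n with _ | n
        · exact i.elim0
        · revert i
          refine Fin.cases ?_ (fun j => ?_)
          · have := h5 0
            exact le_of_lt this
          · exact (hl.1 j.succ).1
    · rw [strictMono_cons]
      exact ⟨h5, hl.2⟩
  · intro l hl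
    rw [Finset.mem_filter] at hl
    simp only [← hl.2]
    exact Fin.cons_self_tail l
  · intro l _
    simp
  · intro l hl
    rw [Finset.mem_filter] at hl
    simp only [← hl.2, consL_apply]
    rw [Fin.cons_self_tail]

lemma T_rec {n : ℕ} (A : Fn (n + 1)) (k : Fin (n + 2) → ℤ) (h0 : k 0 ≤ k 1) :
    T A k = (∑ x ∈ Finset.Ico (k 0) (k 1), T (consL x A) (Fin.tail k)) +
      T (consL (k 1) A) (Fin.cons (k 1 + 1) (Fin.tail (Fin.tail k))) := by
  rw [T_fiber]
  have : Finset.Icc (k 0) (k 1) = insert (k 1) (Finset.Ico (k 0) (k 1)) := by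
    ext x
    simp only [Finset.mem_Icc, Finset.mem_insert, Finset.mem_Ico]
    omega
  rw [this, Finset.sum_insert (by simp), add_comm, T_fiber_eq A k h0]
  congr 1
  refine Finset.sum_congr rfl (fun x hx => ?_)
  rw [Finset.mem_Ico] at hx
  exact T_fiber_lt A k x hx.1 hx.2

/-- the expected value -/
def U {n : ℕ} (F : Fn n) (k : Fin (n + 1) → ℤ) : ℤ :=
  ∑ m : Fin (n + 1), (-1) ^ (m : ℕ) *
    F (fun i => k (m.succAbove i) + if i.castSucc < m then 0 else 1)

lemma U_sub {n : ℕ} (F G : Fn n) (k : Fin (n + 1) → ℤ) : U (F - G) k = U F k - U G k := by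
  simp [U, mul_sub, Finset.sum_sub_distrib]

lemma U_add {n : ℕ} (F G : Fn n) (k : Fin (n + 1) → ℤ) : U (F + G) k = U F k + U G k := by
  simp [U, mul_add, Finset.sum_add_distrib]

lemma U_zero_fn {n : ℕ} (k : Fin (n + 1) → ℤ) : U (0 : Fn n) k = 0 := by
  simp [U]

lemma U_rec {n : ℕ} (F : Fn (n + 1)) (k : Fin (n + 2) → ℤ) :
    U F k = F (fun i => k i.succ + 1) - U (consL (k 0) F) (Fin.tail k) := by
  unfold U
  rw [Fin.sum_univ_succ, sub_eq_add_neg, ← Finset.sum_neg_distrib]
  congr 1
  · simp
  · refine Finset.sum_congr rfl (fun m _ => ?_)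
    rw [Fin.val_succ, pow_succ, mul_comm (_ ^ _) (-1), mul_assoc, neg_one_mul]
    congr 2
    rw [consL_apply]
    congr 1
    funext i
    refine Fin.cases ?_ (fun i => ?_) i
    · simp
    · simp only [Fin.succ_succAbove_succ, Fin.cons_succ, Fin.tail]
      congr 1
      rw [← Fin.succ_castSucc]
      simp only [Fin.succ_lt_succ_iff]

/-- the property of the function `F` -/
def PP {n : ℕ} (F : Fn n) : Prop :=
  ∀ (i j : Fin n), (j : ℕ) = (i : ℕ) + 1 → ∀ k : Fin n → ℤ, k i = k j →
    F k - F (k + Pi.single j 1) + F (k + Pi.single i 1 + Pi.single j 1) = 0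

lemma PP_consL {n : ℕ} {F : Fn (n + 1)} (hF : PP F) (x : ℤ) : PP (consL x F) := by
  intro i j hij k hk
  have := hF i.succ j.succ (by simp [hij]) (Fin.cons x k) (by simpa using hk)
  simp only [consL_apply, cons_add_single_succ]
  exact this

lemma PP_sub {n : ℕ} {F G : Fn n} (hF : PP F) (hG : PP G) : PP (F - G) := by
  intro i j hij k hk
  have h1 := hF i j hij k hk
  have h2 := hG i j hij k hk
  simp only [Pi.sub_apply]
  linarith

/-- product of all difference operators -/
noncomputable def DD {n : ℕ} (F : Fn n) : Fn n := act n (∏ i : Fin n, (X i - 1)) F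

lemma consL_DD {n : ℕ} (F : Fn (n + 1)) (x : ℤ) :
    consL x (DD F) = DD (consL (x + 1) F - consL x F) := by
  unfold DD
  rw [Fin.prod_univ_succ]
  have h1 : (∏ i : Fin n, ((X i.succ : MvPolynomial (Fin (n + 1)) ℤ) - 1)) =
      rename Fin.succ (∏ i : Fin n, ((X i : MvPolynomial (Fin n) ℤ) - 1)) := by
    rw [map_prod]
    refine Finset.prod_congr rfl (fun i _ => ?_)
    simp
  rw [h1, mul_comm, act_mul, ← act_consL]
  congr 1
  funext l
  simp only [consL_apply, Pi.sub_apply]
  rw [act_sub, act_one]
  simp only [Pi.sub_apply]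
  rw [act_X, cons_add_single_zero]

lemma T_DD {n : ℕ} (F : Fn n) (hF : PP F) (k : Fin (n + 1) → ℤ)
    (hk0 : ∀ h : 0 < n, k 0 ≤ k ⟨1, by omega⟩)
    (hk : ∀ i j : Fin (n + 1), 1 ≤ (i : ℕ) → i < j → k i < k j) :
    T (DD F) k = U F k := by
  induction n with
  | zero =>
    unfold T U DD
    have : lset 0 k = {fun i => i.elim0} := by
      ext l
      rw [mem_lset]
      simp only [Finset.mem_singleton]
      constructor
      · intro _
        exact Subsingleton.elim _ _
      · intro _
        exact ⟨fun i => i.elim0, fun i => i.elim0⟩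
    rw [this]
    simp
    congr 1
    exact Subsingleton.elim _ _
  | succ n ih =>
    have h01 : k 0 ≤ k 1 := hk0 (Nat.succ_pos n)
    rw [T_rec _ _ h01]
    have hc1 : ∀ h : 0 < n, (Fin.tail k) 0 ≤ (Fin.tail k) ⟨1, by omega⟩ := by
      intro h
      have := hk ⟨1, by omega⟩ ⟨2, by omega⟩ le_rfl (by simp [Fin.lt_def])
      exact le_of_lt this
    have hc2 : ∀ i j : Fin (n + 1), 1 ≤ (i : ℕ) → i < j → (Fin.tail k) i < (Fin.tail k) j := by
      intro i j _ hij
      exact hk i.succ j.succ (by simp) (Fin.succ_lt_succ_iff.mpr hij)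
    have hd1 : ∀ h : 0 < n, (Fin.cons (k 1 + 1) (Fin.tail (Fin.tail k)) : Fin (n + 1) → ℤ) 0 ≤
        (Fin.cons (k 1 + 1) (Fin.tail (Fin.tail k)) : Fin (n + 1) → ℤ) ⟨1, by omega⟩ := by
      intro h
      have := hk ⟨1, by omega⟩ ⟨2, by omega⟩ le_rfl (by simp [Fin.lt_def])
      obtain ⟨n, rfl⟩ : ∃ n', n = n' + 1 := ⟨n - 1, by omega⟩
      exact this
    have hd2 : ∀ i j : Fin (n + 1), 1 ≤ (i : ℕ) → i < j →
        (Fin.cons (k 1 + 1) (Fin.tail (Fin.tail k)) : Fin (n + 1) → ℤ) i <
        (Fin.cons (k 1 + 1) (Fin.tail (Fin.tail k)) : Fin (n + 1) → ℤ) j := by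
      intro i j
      refine Fin.cases ?_ (fun i => ?_) i
      · intro h; simp at h
      · refine Fin.cases ?_ (fun j => ?_) j
        · intro _ h; exact absurd h (Fin.not_lt_zero _)
        · intro _ h
          simp only [Fin.cons_succ]
          exact hk i.succ.succ j.succ.succ (by simp)
            (Fin.succ_lt_succ_iff.mpr h)
    have e1 : ∀ x, T (consL x (DD F)) (Fin.tail k) =
        U (consL (x + 1) F) (Fin.tail k) - U (consL x F) (Fin.tail k) := by
      intro x
      rw [consL_DD, ih _ (PP_sub (PP_consL hF _) (PP_consL hF _)) _ hc1 hc2, U_sub]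
    have e2 : T (consL (k 1) (DD F)) (Fin.cons (k 1 + 1) (Fin.tail (Fin.tail k))) =
        U (consL (k 1 + 1) F) (Fin.cons (k 1 + 1) (Fin.tail (Fin.tail k))) -
        U (consL (k 1) F) (Fin.cons (k 1 + 1) (Fin.tail (Fin.tail k))) := by
      rw [consL_DD, ih _ (PP_sub (PP_consL hF _) (PP_consL hF _)) _ hd1 hd2, U_sub]
    have e3 : ∑ x ∈ Finset.Ico (k 0) (k 1), T (consL x (DD F)) (Fin.tail k) =
        U (consL (k 1) F) (Fin.tail k) - U (consL (k 0) F) (Fin.tail k) := by
      rw [Finset.sum_congr rfl (fun x _ => e1 x)]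
      have key : ∀ (g : ℤ → ℤ) (a : ℤ) (m : ℕ),
          ∑ x ∈ Finset.Ico a (a + m), (g (x + 1) - g x) = g (a + m) - g a := by
        intro g a m
        induction m with
        | zero => simp
        | succ m ihm =>
          have : Finset.Ico a (a + ((m + 1 : ℕ) : ℤ)) = insert (a + m) (Finset.Ico a (a + m)) := by
            ext x
            simp only [Finset.mem_insert, Finset.mem_Ico]
            push_cast
            omega
          rw [this, Finset.sum_insert (by simp), ihm]
          push_cast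
          rw [← add_assoc]
          ring
      have := key (fun x => U (consL x F) (Fin.tail k)) (k 0) (k 1 - k 0).toNat
      rw [Int.toNat_of_nonneg (by omega)] at this
      simpa using this
    rw [e3, e2, U_rec]
    -- it remains to prove the local identity
    have main : U (consL (k 1) F) (Fin.tail k) +
        U (consL (k 1 + 1) F) (Fin.cons (k 1 + 1) (Fin.tail (Fin.tail k))) -
        U (consL (k 1) F) (Fin.cons (k 1 + 1) (Fin.tail (Fin.tail k))) =
        F (fun i => k i.succ + 1) := by
      rcases n with _ | n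
      · have c0 : ∀ (x : ℤ) (g : Fin 0 → ℤ), (Fin.cons x g : Fin 1 → ℤ) = fun _ => x := by
          intro x g
          funext i
          have : i = 0 := Fin.fin_one_eq_zero i
          subst this
          rfl
        have c1 : (fun i : Fin 1 => k i.succ + 1) = fun _ => k 1 + 1 := by
          funext i
          have : i = 0 := Fin.fin_one_eq_zero i
          subst this
          rfl
        unfold U
        simp only [consL_apply, c0]
        have c2 : F (fun i => k i.succ + 1) = F (fun _ => k 1 + 1) := congrArg F c1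
        rw [c2]
        simp
      · rw [U_rec, U_rec, U_rec]
        simp only [consL_apply, Fin.cons_zero, Fin.cons_succ, Fin.tail_cons]
        have t1 : (Fin.tail k) 0 = k 1 := rfl
        rw [t1]
        have z : consL (k 1) (consL (k 1) F) + consL (k 1 + 1) (consL (k 1 + 1) F)
            - consL (k 1 + 1) (consL (k 1) F) = 0 := by
          funext l
          simp only [Pi.add_apply, Pi.sub_apply, consL_apply, Pi.zero_apply]
          have := hF 0 1 (by simp) (Fin.cons (k 1) (Fin.cons (k 1) l)) (by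
            have : (1 : Fin (n + 2)) = Fin.succ 0 := rfl
            rw [this]; simp)
          have a1 : (Fin.cons (k 1) (Fin.cons (k 1) l) : Fin (n + 2) → ℤ) + Pi.single 1 1
              = Fin.cons (k 1) (Fin.cons (k 1 + 1) l) := by
            have h1 : (Fin.cons (k 1) (Fin.cons (k 1) l) : Fin (n + 2) → ℤ) + Pi.single (Fin.succ 0) 1
                = Fin.cons (k 1) (Fin.cons (k 1 + 1) l) := by
              rw [← cons_add_single_succ, ← cons_add_single_zero]
            exact h1
          have a2 : (Fin.cons (k 1) (Fin.cons (k 1) l) : Fin (n + 2) → ℤ) + Pi.single 0 1 + Pi.single 1 1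
              = Fin.cons (k 1 + 1) (Fin.cons (k 1 + 1) l) := by
            have h2 : (Fin.cons (k 1) (Fin.cons (k 1 + 1) l) : Fin (n + 2) → ℤ) + Pi.single 0 1
                = Fin.cons (k 1 + 1) (Fin.cons (k 1 + 1) l) := by
              rw [← cons_add_single_zero]
            have h3 : (Fin.cons (k 1) (Fin.cons (k 1) l) : Fin (n + 2) → ℤ) + Pi.single 1 1 +
                Pi.single 0 1 = Fin.cons (k 1 + 1) (Fin.cons (k 1 + 1) l) :=
              (congrArg (fun t : Fin (n + 2) → ℤ => t + Pi.single 0 1) a1).trans h2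
            have h4 : (Fin.cons (k 1) (Fin.cons (k 1) l) : Fin (n + 2) → ℤ) + Pi.single 0 1 +
                Pi.single 1 1 = (Fin.cons (k 1) (Fin.cons (k 1) l) : Fin (n + 2) → ℤ) +
                Pi.single 1 1 + Pi.single 0 1 := add_right_comm _ _ _
            exact h4.trans h3
          rw [a1, a2] at this
          linarith
        have z2 : U (consL (k 1) (consL (k 1) F)) (Fin.tail (Fin.tail k)) +
            U (consL (k 1 + 1) (consL (k 1 + 1) F)) (Fin.tail (Fin.tail k)) -
            U (consL (k 1 + 1) (consL (k 1) F)) (Fin.tail (Fin.tail k)) = 0 := by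
          rw [← U_add, ← U_sub, z, U_zero_fn]
        have z3 : F (fun i => k i.succ + 1) =
            F (Fin.cons (k 1 + 1) (fun i => (Fin.tail (Fin.tail k)) i + 1)) := by
          congr 1
          funext i
          refine Fin.cases ?_ (fun i => ?_) i
          · simp
          · simp [Fin.tail]
        rw [z3]
        have z4 : (fun i : Fin (n + 1) => (Fin.tail k) i.succ + 1) =
            (fun i => (Fin.tail (Fin.tail k)) i + 1) := rfl
        rw [z4]
        linarith
    linarith

end Pool.Agent.H.MP_16be1b_co
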